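import Pool.Agent.helper46.T7.SpecC
import Pool.Agent.helper9.Tors.Quad

set_option autoImplicit false

namespace Pool.Agent.T7

open Finset NumberField Pool.Agent.helper3.FT Pool.Agent.helper47.RA Pool.Agent.T5 Pool.Agent.T6
open Pool.Agent.helper26.T5 (nn LEMB LP HCL HGA LYT LAW)
open Pool.Agent.helper28.LT (rad)

/-- an integer which is not rational -/
theorem CHX_irr {K : Type} [Field K] [NumberField K] (h2 : Module.finrank ℚ K = 2) :
    ∃ α : 𝓞 K, ¬ ∃ a : ℤ, α = (a : 𝓞 K) := by
  have hr : Module.finrank ℤ (𝓞 K) = 2 := by rw [RingOfIntegers.rank, h2]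
  let e : Module.Basis (Fin 2) ℤ (𝓞 K) := Module.finBasisOfFinrankEq ℤ (𝓞 K) hr
  by_contra hcon
  push Not at hcon
  obtain ⟨a, ha⟩ := hcon (e 0)
  obtain ⟨b, hb⟩ := hcon (e 1)
  have hli := e.linearIndependent
  rw [Fintype.linearIndependent_iff] at hli
  have h0 := hli ![b, -a] (by
    simp only [Fin.sum_univ_two, Matrix.cons_val_zero, Matrix.cons_val_one, ha, hb, zsmul_eq_mul]
    push_cast
    ring) 0
  simp only [Matrix.cons_val_zero] at h0
  have h1 := e.ne_zero 1
  rw [hb, h0] at h1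
  simp at h1

/-- a rational number which is an integer of the field is an integer -/
theorem CHX_int {K : Type} [Field K] [NumberField K] (α : 𝓞 K) (q : ℚ)
    (h : algebraMap ℚ K q = (α : K)) : ∃ a : ℤ, α = (a : 𝓞 K) := by
  have h1 : IsIntegral ℤ (algebraMap ℚ K q) := by
    rw [h]; exact RingOfIntegers.isIntegral_coe α
  have h2 : IsIntegral ℤ q := (isIntegral_algebraMap_iff (algebraMap ℚ K).injective).1 h1
  obtain ⟨y, hy⟩ := IsIntegrallyClosed.isIntegral_iff.1 h2
  refine ⟨y, RingOfIntegers.ext ?_⟩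
  rw [← h, ← hy]
  simp

/-- a square root of the discriminant which is not rational -/
theorem CHX_sqrt {K : Type} [Field K] [NumberField K] (h2 : Module.finrank ℚ K = 2) :
    ∃ δ : K, δ ^ 2 = ((NumberField.discr K : ℤ) : K) ∧ ∀ r : ℚ, algebraMap ℚ K r ≠ δ := by
  obtain ⟨α, hα⟩ := CHX_irr h2
  obtain ⟨t, n, b, h1, -, h3⟩ := Pool.Agent.helper9.Tors.quad_rel h2 α
  have h1K : (α : K) ^ 2 - (t : K) * (α : K) + (n : K) = 0 := by
    have := congrArg (fun z : 𝓞 K => (z : K)) h1
    simpa using this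
  have h3K : (t : K) ^ 2 - 4 * (n : K) = (b : K) ^ 2 * ((NumberField.discr K : ℤ) : K) := by
    exact_mod_cast congrArg (fun z : ℤ => (z : K)) h3
  have hb : (b : K) ≠ 0 := by
    intro h0
    apply hα
    rw [h0] at h3K
    have h4 : (2 * (α : K) - (t : K)) ^ 2 = 0 := by linear_combination 4 * h1K + h3K
    have h5 : 2 * (α : K) - (t : K) = 0 := by
      exact (pow_eq_zero_iff two_ne_zero).1 h4
    refine CHX_int α ((t : ℚ) / 2) ?_
    have h6 : (α : K) = (t : K) / 2 := by
      rw [eq_div_iff two_ne_zero]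
      linear_combination h5
    rw [h6]
    simp
  refine ⟨(2 * (α : K) - t) / b, ?_, ?_⟩
  · rw [div_pow, div_eq_iff (pow_ne_zero 2 hb)]
    linear_combination 4 * h1K + h3K
  · intro r hr
    apply hα
    rw [eq_div_iff hb] at hr
    refine CHX_int α ((r * b + t) / 2) ?_
    have h6 : (α : K) = (algebraMap ℚ K r * (b : K) + (t : K)) / 2 := by
      rw [eq_div_iff two_ne_zero]
      linear_combination -hr
    rw [h6]
    simp

theorem CHX_pb {L : Type} [Field L] [NumberField L] (h2 : Module.finrank ℚ L = 2) (d : L)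
    (hn : ∀ r : ℚ, algebraMap ℚ L r ≠ d) : ∃ pb : PowerBasis ℚ L, pb.gen = d := by
  have hint : IsIntegral ℚ d := Algebra.IsIntegral.isIntegral d
  have hsimp : IsSimpleOrder (IntermediateField ℚ L) :=
    IntermediateField.isSimpleOrder_of_finrank_prime ℚ L (by rw [h2]; exact Nat.prime_two)
  have htop : IntermediateField.adjoin ℚ {d} = ⊤ := by
    rcases eq_bot_or_eq_top (IntermediateField.adjoin ℚ {d}) with h | h
    · exfalso
      have hd : d ∈ IntermediateField.adjoin ℚ {d} := IntermediateField.mem_adjoin_simple_self ℚ d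
      rw [h, IntermediateField.mem_bot] at hd
      obtain ⟨r, hr⟩ := hd
      exact hn r hr
    · exact h
  refine ⟨(IntermediateField.adjoin.powerBasis hint).map
    ((IntermediateField.equivOfEq htop).trans IntermediateField.topEquiv), ?_⟩
  rw [PowerBasis.map_gen]
  rfl

theorem CHX_equiv {K K' : Type} [Field K] [NumberField K] [Field K'] [NumberField K']
    (h2 : Module.finrank ℚ K = 2) (h2' : Module.finrank ℚ K' = 2)
    (hd : NumberField.discr K = NumberField.discr K') : Nonempty (K ≃ₐ[ℚ] K') := by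
  obtain ⟨δ, hδ, hn⟩ := CHX_sqrt h2
  obtain ⟨δ', hδ', hn'⟩ := CHX_sqrt h2'
  obtain ⟨pb, hpb⟩ := CHX_pb h2 δ hn
  obtain ⟨pb', hpb'⟩ := CHX_pb h2' δ' hn'
  have key : ∀ (L : Type) [Field L] [NumberField L] (_ : Module.finrank ℚ L = 2) (q : PowerBasis ℚ L)
      (D : ℤ), q.gen ^ 2 = ((D : ℤ) : L) → minpoly ℚ q.gen = Polynomial.X ^ 2 - Polynomial.C (D : ℚ) := by
    intro L _ _ hL q D hq
    have hdvd : minpoly ℚ q.gen ∣ Polynomial.X ^ 2 - Polynomial.C (D : ℚ) := by
      apply minpoly.dvd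
      simp [hq]
    have hm : (Polynomial.X ^ 2 - Polynomial.C (D : ℚ)).Monic := Polynomial.monic_X_pow_sub_C _ two_ne_zero
    have hm' : (minpoly ℚ q.gen).Monic := minpoly.monic (Algebra.IsIntegral.isIntegral _)
    refine (Polynomial.eq_of_monic_of_dvd_of_natDegree_le hm' hm hdvd ?_).symm
    rw [Polynomial.natDegree_X_pow_sub_C, q.natDegree_minpoly, ← q.finrank, hL]
  refine ⟨pb.equivOfMinpoly pb' ?_⟩
  rw [key K h2 pb (NumberField.discr K) (by rw [hpb, hδ]),
    key K' h2' pb' (NumberField.discr K') (by rw [hpb', hδ']), hd]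

theorem CHX_card {K K' : Type} [Field K] [NumberField K] [Field K'] [NumberField K']
    (h2 : Module.finrank ℚ K = 2) (h2' : Module.finrank ℚ K' = 2)
    (hd : NumberField.discr K = NumberField.discr K') :
    Nat.card {x : ClassGroup (𝓞 K) // x ^ 5 = 1} = Nat.card {x : ClassGroup (𝓞 K') // x ^ 5 = 1} := by
  obtain ⟨e⟩ := CHX_equiv h2 h2' hd
  have g : (𝓞 K) ≃+* (𝓞 K') := RingOfIntegers.mapRingEquiv e.toRingEquiv
  have f : ClassGroup (𝓞 K) ≃* ClassGroup (𝓞 K') := ClassGroup.mulEquiv g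
  refine Nat.card_congr (f.toEquiv.subtypeEquiv ?_)
  intro a
  constructor
  · intro h
    change f a ^ 5 = 1
    rw [← map_pow, h, map_one]
  · intro h
    change f a ^ 5 = 1 at h
    rw [← map_pow] at h
    exact f.injective (by rw [h, map_one])

theorem CHX : CHX_stmt := by
  have key : ∀ D : ℤ, ∃ m : ℕ, ∀ (K : Type) [Field K] [NumberField K], Module.finrank ℚ K = 2 →
      NumberField.discr K = D → m = Nat.card {x : ClassGroup (𝓞 K) // x ^ 5 = 1} := by
    intro D
    by_cases h : ∃ (K : Type) (_ : Field K) (_ : NumberField K), Module.finrank ℚ K = 2 ∧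
        NumberField.discr K = D
    · obtain ⟨K, i1, i2, hK, hD⟩ := h
      refine ⟨Nat.card {x : ClassGroup (𝓞 K) // x ^ 5 = 1}, ?_⟩
      intro K' _ _ hK' hD'
      exact CHX_card hK hK' (hD.trans hD'.symm)
    · refine ⟨0, ?_⟩
      intro K' i1 i2 hK' hD'
      exact absurd ⟨K', i1, i2, hK', hD'⟩ h
  choose h hh using key
  refine ⟨h, ?_⟩
  intro K _ _ hK
  exact hh (NumberField.discr K) K hK rfl

end Pool.Agent.T7
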